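import Pool.Agent.Lib.FE80.Lim

set_option autoImplicit false

open MeasureTheory Filter Topology
open scoped ComplexOrder

namespace Pool.Agent.Results.MP_8014b8_an.Subsequences

/-- The sets `Γ R m ε k` are the microstate spaces of the moment assignment `τ` (this is word for
word the hypothesis of the statement `S05207`): `x` codes the self-adjoint `k × k` matrices
`A 0, ..., A (n-1)` in an orthonormal basis, each `A j` has norm at most `R`, and the normalised
trace of every word of length at most `m` is within `ε` of `τ`. -/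
def IsMicrostates (n : ℕ) (τ : List (Fin n) → ℂ)
    (Γ : ℝ → ℕ → ℝ → (k : ℕ) → Set (Fin n → Fin k → Fin k → ℝ)) : Prop :=
  ∀ (R : ℝ) (m : ℕ) (ε : ℝ) (k : ℕ) (x : Fin n → Fin k → Fin k → ℝ),
    x ∈ Γ R m ε k ↔
      ∀ A : Fin n → Matrix (Fin k) (Fin k) ℂ,
        (∀ (j : Fin n) (a b : Fin k), A j a b =
          if a = b then ((x j a a : ℝ) : ℂ)
          else if a < b then
            (((x j a b : ℝ) : ℂ) + ((x j b a : ℝ) : ℂ) * Complex.I) / ((Real.sqrt 2 : ℝ) : ℂ)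
          else
            (((x j b a : ℝ) : ℂ) - ((x j a b : ℝ) : ℂ) * Complex.I) / ((Real.sqrt 2 : ℝ) : ℂ)) →
        ((∀ j : Fin n,
            ((R : ℂ) • (1 : Matrix (Fin k) (Fin k) ℂ) - A j).PosSemidef ∧
            ((R : ℂ) • (1 : Matrix (Fin k) (Fin k) ℂ) + A j).PosSemidef) ∧
          ∀ w : List (Fin n), w.length ≤ m →
            ‖((k : ℂ))⁻¹ * Matrix.trace ((w.map A).prod) - τ w‖ < ε)

/-- `k⁻² log vol Γ(R, m, ε, k) + (n/2) log k`. -/
noncomputable def logVol (n : ℕ)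
    (Γ : ℝ → ℕ → ℝ → (k : ℕ) → Set (Fin n → Fin k → Fin k → ℝ))
    (R : ℝ) (m : ℕ) (ε : ℝ) (k : ℕ) : EReal :=
  ((((k : ℝ) ^ 2)⁻¹ : ℝ) : EReal) * ENNReal.log (MeasureTheory.volume (Γ R m ε k))
    + ((((n : ℝ) / 2) * Real.log (k : ℝ) : ℝ) : EReal)

/-- The entropy at the norm bound `R`, the upper limit being taken over the sizes `s 0, s 1, ..`. -/
noncomputable def chiUpperR (n : ℕ)
    (Γ : ℝ → ℕ → ℝ → (k : ℕ) → Set (Fin n → Fin k → Fin k → ℝ)) (s : ℕ → ℕ) (R : ℝ) : EReal :=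
  ⨅ (m : ℕ) (ε : ℝ) (_ : 0 < ε), Filter.limsup (fun j : ℕ => logVol n Γ R m ε (s j)) Filter.atTop

/-- The same with the lower limit. -/
noncomputable def chiLowerR (n : ℕ)
    (Γ : ℝ → ℕ → ℝ → (k : ℕ) → Set (Fin n → Fin k → Fin k → ℝ)) (s : ℕ → ℕ) (R : ℝ) : EReal :=
  ⨅ (m : ℕ) (ε : ℝ) (_ : 0 < ε), Filter.liminf (fun j : ℕ => logVol n Γ R m ε (s j)) Filter.atTop

/-- The entropy with upper limits over the sizes `s 0, s 1, ..`; `s = id` gives `χ`. -/
noncomputable def chiUpper (n : ℕ)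
    (Γ : ℝ → ℕ → ℝ → (k : ℕ) → Set (Fin n → Fin k → Fin k → ℝ)) (s : ℕ → ℕ) : EReal :=
  ⨆ (R : ℝ) (_ : 0 < R), chiUpperR n Γ s R

/-- The entropy with lower limits over the sizes `s 0, s 1, ..`. -/
noncomputable def chiLower (n : ℕ)
    (Γ : ℝ → ℕ → ℝ → (k : ℕ) → Set (Fin n → Fin k → Fin k → ℝ)) (s : ℕ → ℕ) : EReal :=
  ⨆ (R : ℝ) (_ : 0 < R), chiLowerR n Γ s R

theorem eq_Gam {n : ℕ} {τ : List (Fin n) → ℂ}
    {Γ : ℝ → ℕ → ℝ → (k : ℕ) → Set (Fin n → Fin k → Fin k → ℝ)} (hΓ : IsMicrostates n τ Γ)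
    (R : ℝ) (m : ℕ) (ε : ℝ) (k : ℕ) : Γ R m ε k = Pool.FE80.Gam n τ R m ε k := by
  ext x
  rw [hΓ R m ε k x]
  constructor
  · intro h
    exact h (fun j => Pool.FE80.Mx (x j)) (fun j a b => rfl)
  · intro h A hA
    have : A = fun j => Pool.FE80.Mx (x j) := by
      funext j
      ext a b
      rw [hA]
      rfl
    subst this
    exact h

theorem logVol_eq {n : ℕ} {τ : List (Fin n) → ℂ}
    {Γ : ℝ → ℕ → ℝ → (k : ℕ) → Set (Fin n → Fin k → Fin k → ℝ)} (hΓ : IsMicrostates n τ Γ)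
    (R : ℝ) (m : ℕ) (ε : ℝ) (k : ℕ) : logVol n Γ R m ε k = Pool.FE80.L n τ R m ε k := by
  unfold logVol Pool.FE80.L
  rw [eq_Gam hΓ]

theorem result (n : ℕ) (τ : List (Fin n) → ℂ)
    (Γ : ℝ → ℕ → ℝ → (k : ℕ) → Set (Fin n → Fin k → Fin k → ℝ)) (hΓ : IsMicrostates n τ Γ)
    (s : ℕ → ℕ) (hs : StrictMono s)
    (hr : Filter.Tendsto (fun j => (s (j + 1) : ℝ) / (s j : ℝ)) Filter.atTop (nhds 1)) :
    (∀ R : ℝ, 0 < R →
      chiUpperR n Γ s R = chiUpperR n Γ id R ∧ chiLowerR n Γ s R = chiLowerR n Γ id R) ∧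
    chiUpper n Γ s = chiUpper n Γ id ∧ chiLower n Γ s = chiLower n Γ id := by
  have key : ∀ R : ℝ, 0 < R →
      chiUpperR n Γ s R = chiUpperR n Γ id R ∧ chiLowerR n Γ s R = chiLowerR n Γ id R := by
    intro R hR
    unfold chiUpperR chiLowerR
    simp only [logVol_eq hΓ, id]
    constructor
    · refine le_antisymm ?_ ?_
      · refine iInf_mono fun m => iInf_mono fun ε => iInf_mono fun _ => ?_
        exact limsup_le_limsup_of_le (f := map s atTop) (g := atTop)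
          (u := fun k => Pool.FE80.L n τ R m ε k) hs.tendsto_atTop
      · refine le_iInf fun m => le_iInf fun ε => le_iInf fun hε => ?_
        refine (iInf_le_of_le m (iInf_le_of_le (ε / 2) (iInf_le_of_le (half_pos hε) le_rfl))).trans ?_
        exact Pool.FE80.limsup_le τ m hR (half_pos hε) (half_lt_self hε) hs hr
    · refine le_antisymm ?_ ?_
      · refine le_iInf fun m => le_iInf fun ε => le_iInf fun hε => ?_
        refine (iInf_le_of_le m (iInf_le_of_le (ε / 2) (iInf_le_of_le (half_pos hε) le_rfl))).trans ?_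
        exact Pool.FE80.liminf_le τ m hR (half_pos hε) (half_lt_self hε) hs hr
      · refine iInf_mono fun m => iInf_mono fun ε => iInf_mono fun _ => ?_
        exact liminf_le_liminf_of_le (f := atTop) (g := map s atTop)
          (u := fun k => Pool.FE80.L n τ R m ε k) hs.tendsto_atTop
  refine ⟨key, ?_, ?_⟩
  · exact iSup_congr fun R => iSup_congr fun hR => (key R hR).1
  · exact iSup_congr fun R => iSup_congr fun hR => (key R hR).2

end Pool.Agent.Results.MP_8014b8_an.Subsequences
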